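import Pool.Agent.Lib.MP_cdd7b4_an.H80.Main5


set_option autoImplicit false

namespace Pool.Agent.Results.MP_cdd7b4_an.ConcaveFunctionSpaces

open MeasureTheory
open Pool.Agent.Lib.MP_cdd7b4_an.H80
open Pool.Agent.Lib.MP_cdd7b4_an.H85 (ContainsCopy IsHilbertian L1I ell2)

universe u

/-- Let `E` be a `p`-concave Banach function space, `1 ≤ p < 2`, and `H` a Hilbert space. For a
Banach space `X` isomorphic to a subspace of `E(H)`, the space `L¹([0,1], X)` contains a copy of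
`ℓ²(X)` if and only if some `L¹(ν, X)` contains the spaces `ℓ₂^N(X)` uniformly, and if and only if
`X` is isomorphic to a Hilbert space. -/
theorem result {𝕜 : Type*} [RCLike 𝕜] {X : Type u} [NormedAddCommGroup X] [NormedSpace 𝕜 X]
    [CompleteSpace X] {S : Type*} [MeasurableSpace S] {μ : Measure S} (ρ : FunctionNorm μ)
    {p : ℝ} (hp1 : 1 ≤ p) (hp2 : p < 2) (hρ : ρ.IsConcave p)
    {H : Type*} [NormedAddCommGroup H] [InnerProductSpace 𝕜 H] (hX : EmbedsIn 𝕜 ρ H X) :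
    List.TFAE [ContainsCopy 𝕜 (L1I X) (ell2 X),
      ∃ (Ω : Type) (_ : MeasurableSpace Ω) (ν : Measure Ω), ContainsUniformly 𝕜 (Lp X 1 ν) X,
      IsHilbertian 𝕜 X] := by
  tfae_have 1 → 2 := fun h => ⟨ℝ, inferInstance, _, uniform_of_copy h⟩
  tfae_have 2 → 3 := by
    rintro ⟨Ω, _, ν, h⟩
    exact main5 (ν := ν) ρ hp1 hp2 hρ hX h
  tfae_have 3 → 1 := by
    rintro ⟨H', _, _, _, ⟨e⟩⟩
    exact Pool.Agent.Lib.MP_cdd7b4_an.H85.converse_hilbert e
  tfae_finish

end Pool.Agent.Results.MP_cdd7b4_an.ConcaveFunctionSpaces
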