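import Pool.Agent.Lib.MP_cdd7b4_an.H80.MixNeg
import Pool.Agent.Lib.MP_cdd7b4_an.H80.MixPos

set_option autoImplicit false

namespace Pool.Agent.Results.MP_cdd7b4_an.MixedSequenceSpaces

open MeasureTheory
open scoped ENNReal
open Pool.Agent.Lib.MP_cdd7b4_an.H80
open Pool.Agent.Lib.MP_cdd7b4_an.H85 (ContainsCopy L1I ell2)

/-- Diestel's property: `L¹([0,1], X)` contains a copy of `ℓ²(X)`. -/
def HasProperty (𝕜 : Type*) [RCLike 𝕜] (X : Type*) [NormedAddCommGroup X] [NormedSpace 𝕜 X] :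
    Prop :=
  ContainsCopy 𝕜 (L1I X) (ell2 X)

/-- For `1 ≤ p, q < ∞` the space `X = ℓ^p(ℓ^q)` has the property (`L¹([0,1], X)` contains a copy
of `ℓ²(X)`) if and only if `p ≥ 2`. -/
theorem result {𝕜 : Type*} [RCLike 𝕜] {p q : ℝ≥0∞} [Fact (1 ≤ p)] [Fact (1 ≤ q)]
    (hp : p ≠ ⊤) (hq : q ≠ ⊤) :
    HasProperty 𝕜 (lp (fun _ : ℕ => lp (fun _ : ℕ => 𝕜) q) p) ↔ 2 ≤ p := by
  constructor
  · intro h
    by_contra hcon
    refine neg_mix hp hq ?_ h
    have h1 : p < 2 := not_le.1 hcon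
    have h2 := (ENNReal.toReal_lt_toReal hp (by norm_num)).2 h1
    simpa using h2
  · intro h
    have h1 := ENNReal.toReal_mono hp h
    exact pos_lp hp (by simpa using h1)

end Pool.Agent.Results.MP_cdd7b4_an.MixedSequenceSpaces
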