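import Pool.Agent.Lib.MP_cdd7b4_an.MX.H1.Final
import Pool.Agent.Lib.MP_cdd7b4_an.H80.Main5

set_option autoImplicit false

namespace Pool.Agent.Results.MP_cdd7b4_an.MixedSubspaces

open MeasureTheory
open scoped ENNReal
open Pool.Agent.Lib.MP_cdd7b4_an.H80
open Pool.Agent.Lib.MP_cdd7b4_an.H85 (ContainsCopy L1I ell2)
open Pool.Agent.Lib.MP_cdd7b4_an.MX (ContainsLp ContainsMixed)

/-- Let `1 ≤ p < 2`, and let `X` be a normed space which contains the spaces `ℓ_p^m` uniformly and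
has type `q` for all `q < p` (by the Maurey-Pisier theorem this holds for every infinite
dimensional `X` whose type exponent is `p < 2`). If `L¹([0,1], X)` contains a copy of `ℓ²(X)`, or
only some `L¹(ν, X)` contains the spaces `ℓ₂^N(X)` uniformly, then for some `t ∈ [2, ∞]` the space
`X` contains the spaces `ℓ_t^m(ℓ_p^m)` uniformly. -/
theorem result {𝕜 : Type*} [RCLike 𝕜] {X : Type*} [NormedAddCommGroup X] [NormedSpace 𝕜 X]
    {p : ℝ} (hp1 : 1 ≤ p) (hp2 : p < 2) (hX : ContainsLp 𝕜 X p)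
    (ht : ∀ q : ℝ, 1 ≤ q → q < p → HasType X q)
    (h : ContainsCopy 𝕜 (L1I X) (ell2 X) ∨
      ∃ (Ω : Type) (_ : MeasurableSpace Ω) (ν : Measure Ω), ContainsUniformly 𝕜 (Lp X 1 ν) X) :
    ∃ t : ℝ≥0∞, 2 ≤ t ∧ ContainsMixed 𝕜 X t p := by
  refine Pool.Agent.Lib.MP_cdd7b4_an.MX.H1.final 𝕜 X p hp1 hp2 hX ht ?_
  rcases h with h | h
  · exact ⟨ℝ, inferInstance, _, uniform_of_copy h⟩
  · exact h

end Pool.Agent.Results.MP_cdd7b4_an.MixedSubspaces
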