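import Pool.Agent.Lib.MP_cdd7b4_an.H80.Main5
import Pool.Agent.Lib.MP_cdd7b4_an.H80.Main6

set_option autoImplicit false

namespace Pool.Agent.Results.MP_cdd7b4_an.TypeObstruction

open MeasureTheory
open Pool.Agent.Lib.MP_cdd7b4_an.H80
open Pool.Agent.Lib.MP_cdd7b4_an.H85 (ContainsCopy L1I ell2)

/-- Let `E` be a `p`-concave Banach function space, `1 ≤ p < 2`, and `Y` a Banach space of type
`t`, `1 ≤ t < 2`. If `X` is isomorphic to a subspace of `E(Y)` and `L¹([0,1], X)` contains a copy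
of `ℓ²(X)`, or only some `L¹(ν, X)` contains the spaces `ℓ₂^N(X)` uniformly, then `X` has
type `t`. -/
theorem result {𝕜 : Type*} [RCLike 𝕜] {X : Type*} [NormedAddCommGroup X] [NormedSpace 𝕜 X]
    {S : Type*} [MeasurableSpace S] {μ : Measure S} (ρ : FunctionNorm μ)
    {p t : ℝ} (hp1 : 1 ≤ p) (hp2 : p < 2) (hρ : ρ.IsConcave p)
    {Y : Type*} [NormedAddCommGroup Y] [NormedSpace 𝕜 Y] (ht1 : 1 ≤ t) (ht2 : t < 2)
    (hY : HasType Y t) (hX : EmbedsIn 𝕜 ρ Y X)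
    (h : ContainsCopy 𝕜 (L1I X) (ell2 X) ∨
      ∃ (Ω : Type) (_ : MeasurableSpace Ω) (ν : Measure Ω), ContainsUniformly 𝕜 (Lp X 1 ν) X) :
    HasType X t := by
  rcases h with h | ⟨Ω, _, ν, h⟩
  · exact main6 ρ hp1 hp2 ht1 ht2 hρ hY hX (uniform_of_copy h)
  · exact main6 (ν := ν) ρ hp1 hp2 ht1 ht2 hρ hY hX h

end Pool.Agent.Results.MP_cdd7b4_an.TypeObstruction
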